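import Pool.Agent.Q269.DX.St
import Pool.Agent.Q269.SX.St

/-!
# Project DX of helper269, job SLJ: the number of the solutions of the system
-/

set_option autoImplicit false

open scoped Classical
open Finset

namespace Pool.Agent.Q38.DX

open Pool.Agent.Q269.DX Pool.Agent.Q269.DX.JQ
open Pool.Agent.Y164.HG (Dat Symp om om_add_left om_add_right om_smul_left om_smul_right E1 E2 kc V dg TT FF
  E1_add E2_add E1_TT E2_TT dg_TT dg_add FF_eq FF_comm W_add_self om_sum_left eq_zero_of_om F2_cases)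

section

variable {W : Type} [AddCommGroup W] [Module (ZMod 2) W] [Symp W] {τ₀ τ : Type} [Fintype τ₀] [Fintype τ]
  {ι : Type} [Fintype ι] {D : Dat W τ₀} {j : τ₀ → τ} {A : ι → ι → ZMod 2} {B : ι → τ₀ → ZMod 2} {d : ι → ZMod 2}
  {N : ι → ι → ZMod 2} {h : ι → Option τ → ZMod 2}

/-- the third condition -/
theorem x0_eq (hA : ∀ i i', A i i' = A i' i) (hcl : ∀ s, D.sp s + ∑ i, B i s + D.g s = 0)
    (hN : ∑ i, d i + D.N = 1) (w : V W ι τ₀) (x0 : W) (h1 : ∀ i, E1 (A := A) D B d w x0 i = 0)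
    (h2 : ∀ s, E2 (ι := ι) D B w x0 s = 0) : x0 = D.ks (dg D d w) := by
  obtain ⟨y, hy⟩ : ∃ y, y = dg D d w := ⟨_, rfl⟩
  rw [← hy]
  have hdT : ∀ y : W, dg D d (TT D y) = y := fun y => by rw [dg_TT, hN, one_smul]
  have k1 : ∀ i, E1 (A := A) D B d (w + TT D y) (x0 + D.ks y) i = 0 := fun i => by
    rw [E1_add, h1, E1_TT, add_zero]
  have k2 : ∀ s, E2 (ι := ι) D B (w + TT D y) (x0 + D.ks y) s = 0 := fun s => by
    rw [E2_add, h2, E2_TT D B hcl, add_zero]
  have k4 : dg D d (w + TT D y) = 0 := by rw [dg_add, hdT, ← hy, W_add_self]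
  have k6 : x0 + D.ks y = 0 := by
    apply eq_zero_of_om
    intro z
    have e1 := FF_eq D B d _ _ k1 k2 (TT D z)
    have e2 := FF_eq D B d _ _ (fun i => E1_TT (A := A) D B d z i) (fun s => E2_TT D B hcl z s) (w + TT D y)
    rw [FF_comm D B d hA, e2, k4, Pool.Agent.Y164.HG.om_zero_right, hdT] at e1
    exact e1.symm
  calc x0 = x0 + (D.ks y + D.ks y) := by rw [W_add_self, add_zero]
    _ = _ := by rw [← add_assoc, k6, zero_add]

/-- a sum over the labels -/
theorem sum_lab (hj : Function.Injective j) (φ : Option τ → ZMod 2) (δ : Option τ → W) (a : τ₀ → ZMod 2)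
    (h0 : ∀ x, x ∉ Set.range j → δ (some x) = 0) (h1 : ∀ s, δ (some (j s)) = a s • D.t s) :
    ∑ t, φ t • δ t = φ none • δ none + ∑ s, φ (some (j s)) • (a s • D.t s) := by
  rw [Fintype.sum_option]
  congr 1
  symm
  refine Fintype.sum_of_injective j hj _ _ (fun x hx => by rw [h0 x hx, smul_zero]) fun s => ?_
  rw [h1]

/-- the rows -/
theorem row_eq (hj : Function.Injective j) (hNA : ∀ i i', i ≠ i' → N i i' = A i i') (hd : ∀ i, h i none = d i)
    (hB : ∀ i s, h i (some (j s)) = B i s) (δ : Option τ → W) (x : ι → W) (a : τ₀ → ZMod 2)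
    (h0 : ∀ x, x ∉ Set.range j → δ (some x) = 0) (h1 : ∀ s, δ (some (j s)) = a s • D.t s) (i : ι) :
    rowL (DJ D j) N h (δ, x) i = E1 (A := A) D B d (x, a) (δ none) i := by
  have e0 : rowL (DJ D j) N h (δ, x) i =
      ∑ q, N i q • (x q + x i) + (h i none • D.ks (x i) + ∑ s, h i (some (j s)) • (om (x i) (D.t s) • D.t s)) +
        ∑ t, h i t • δ t := rfl
  rw [e0, sum_lab hj (h i) δ a h0 h1, hd]
  have e1 : ∑ q, N i q • (x q + x i) = ∑ q, A i q • (x q + x i) := by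
    refine sum_congr rfl fun q _ => ?_
    by_cases hq : i = q
    · rw [← hq, W_add_self, smul_zero, smul_zero]
    · rw [hNA i q hq]
  have e2 : ∑ s, h i (some (j s)) • (om (x i) (D.t s) • D.t s) = ∑ s, B i s • (om (x i) (D.t s) • D.t s) :=
    sum_congr rfl fun s _ => by rw [hB]
  have e3 : ∑ s, h i (some (j s)) • (a s • D.t s) = ∑ s, B i s • (a s • D.t s) :=
    sum_congr rfl fun s _ => by rw [hB]
  rw [e1, e2, e3]
  unfold E1
  simp only [smul_add, sum_add_distrib]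
  abel

/-- the fourth condition -/
theorem four_eq (hB : ∀ i s, h i (some (j s)) = B i s) (δ : Option τ → W) (x : ι → W) (a : τ₀ → ZMod 2) (s : τ₀) :
    D.sp s * a s + om (∑ p, h p (some (j s)) • x p) (D.t s) + ∑ s', D.G s s' * (a s' * om (D.t s') (D.t s)) +
    D.e s * om (δ none) (D.t s) = E2 (ι := ι) D B (x, a) (δ none) s := by
  unfold E2
  rw [om_sum_left]
  congr 3
  exact sum_congr rfl fun p _ => by rw [hB, om_smul_left]

/-- the class of a vector -/
noncomputable def dl (D : Dat W τ₀) (j : τ₀ → τ) (a : τ₀ → ZMod 2) (x0 : W) : Option τ → W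
  | none => x0
  | some y => if hy : ∃ s, j s = y then a hy.choose • D.t hy.choose else 0

theorem dl_out (a : τ₀ → ZMod 2) (x0 : W) (y : τ) (hy : y ∉ Set.range j) : dl D j a x0 (some y) = 0 := by
  unfold dl
  exact dif_neg hy

theorem dl_in (hj : Function.Injective j) (a : τ₀ → ZMod 2) (x0 : W) (s : τ₀) :
    dl D j a x0 (some (j s)) = a s • D.t s := by
  have hy : ∃ s', j s' = j s := ⟨s, rfl⟩
  have h1 : dl D j a x0 (some (j s)) = a hy.choose • D.t hy.choose := dif_pos hy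
  rw [h1, hj hy.choose_spec]

/-- the membership -/
theorem mem_iff (hj : Function.Injective j) (hA : ∀ i i', A i i' = A i' i)
    (hcl : ∀ s, D.sp s + ∑ i, B i s + D.g s = 0)
    (hN : ∑ i, d i + D.N = 1) (hNA : ∀ i i', i ≠ i' → N i i' = A i i') (hd : ∀ i, h i none = d i)
    (hB : ∀ i s, h i (some (j s)) = B i s) (δ : Option τ → W) (x : ι → W) :
    (δ, x) ∈ Sel (DJ D j) N h ↔ ∃ a : τ₀ → ZMod 2, (∀ x, x ∉ Set.range j → δ (some x) = 0) ∧
      (∀ s, δ (some (j s)) = a s • D.t s) ∧ (∀ i, E1 (A := A) D B d (x, a) (δ none) i = 0) ∧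
      ∀ s, E2 (ι := ι) D B (x, a) (δ none) s = 0 := by
  have hmem : (δ, x) ∈ Sel (DJ D j) N h ↔
      (∃ a, LJc D j (δ, fun t => ∑ p, h p t • x p) a) ∧ rowL (DJ D j) N h (δ, x) = 0 := Iff.rfl
  rw [hmem]
  constructor
  · rintro ⟨⟨a, h0, h1, h3, h4⟩, hrow⟩
    refine ⟨a, h0, h1, fun i => ?_, fun s => ?_⟩
    · rw [← row_eq hj hNA hd hB δ x a h0 h1 i, hrow]
      rfl
    · rw [← four_eq hB δ x a s]
      exact h4 s
  · rintro ⟨a, h0, h1, hE1, hE2⟩
    refine ⟨⟨a, h0, h1, ?_, fun s => ?_⟩, ?_⟩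
    · have h3 := x0_eq hA hcl hN (x, a) (δ none) hE1 hE2
      change δ none = D.ks (∑ p, h p none • x p + ∑ s, (D.e s * a s) • D.t s)
      rw [h3]
      congr 1
      unfold dg
      congr 1
      exact sum_congr rfl fun p _ => by rw [hd]
    · have h4 := four_eq (D := D) hB δ x a s
      rw [hE2 s] at h4
      exact h4
    · funext i
      rw [row_eq hj hNA hd hB δ x a h0 h1 i, hE1 i]
      rfl

end

/-- **JOB DX-SLJ.** -/
theorem t_SLJ (hCNT : Pool.Agent.Q269.SX.S_CNT) : S_SLJ := by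
  intro W _ _ _ _ τ₀ τ _ _ D j hj ht ι _ A B d hA hcl hN N h hNA hd hB
  rw [← hCNT W ι τ₀ D A B d hA hcl hN]
  have hm := fun δ x => mem_iff (D := D) (N := N) (h := h) hj hA hcl hN hNA hd hB δ x
  refine (Nat.card_congr (Equiv.ofBijective
    (fun q : {q : V W ι τ₀ × W // (∀ i, E1 (A := A) D B d q.1 q.2 i = 0) ∧ ∀ s, E2 (ι := ι) D B q.1 q.2 s = 0} =>
      (⟨(dl D j q.1.1.2 q.1.2, q.1.1.1), (hm _ _).2 ⟨q.1.1.2, fun x hx => dl_out _ _ x hx, fun s => dl_in hj _ _ s,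
        q.2.1, q.2.2⟩⟩ : Sel (DJ D j) N h)) ⟨?_, ?_⟩)).symm
  · rintro ⟨⟨⟨x, a⟩, x0⟩, hq⟩ ⟨⟨⟨x', a'⟩, x0'⟩, hq'⟩ heq
    have h1 : ((dl D j a x0, x) : (Option τ → W) × (ι → W)) = (dl D j a' x0', x') := congrArg Subtype.val heq
    have h2 : dl D j a x0 = dl D j a' x0' := congrArg Prod.fst h1
    have h3 : x = x' := congrArg Prod.snd h1
    have h4 : x0 = x0' := congrFun h2 none
    have h5 : a = a' := by
      funext s
      have h6 := congrFun h2 (some (j s))
      rw [dl_in hj, dl_in hj] at h6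
      have h7 : (a s - a' s) • D.t s = 0 := by rw [sub_smul, h6, sub_self]
      rcases F2_cases (a s - a' s) with h8 | h8
      · exact sub_eq_zero.1 h8
      · rw [h8, one_smul] at h7
        exact absurd h7 (ht s)
    subst h3 h4 h5
    rfl
  · rintro ⟨⟨δ, x⟩, hmem⟩
    obtain ⟨a, h0, h1, hE1, hE2⟩ := (hm δ x).1 hmem
    refine ⟨⟨((x, a), δ none), hE1, hE2⟩, ?_⟩
    apply Subtype.ext
    refine Prod.ext ?_ rfl
    funext t
    rcases t with _ | y
    · rfl
    · by_cases hy : y ∈ Set.range j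
      · obtain ⟨s, rfl⟩ := hy
        exact (dl_in hj a (δ none) s).trans (h1 s).symm
      · exact (dl_out a (δ none) y hy).trans (h0 y hy).symm

end Pool.Agent.Q38.DX
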